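import Mathlib

set_option autoImplicit false

/-!
# Groups of class at most two in which every element is a square modulo the centre

The operation `a b [b, s a]`, where `s a` is a square root of `a` modulo the centre, makes `G` an
abelian group, and every congruence of `G` is a congruence of this abelian group (idea: helper56).
-/

namespace Pool.Agent.CGB8

universe u

/-- `G` with another operation -/
def SynH (G : Type u) : Type u := G

theorem halfB {G : Type u} [Group G]
    (hc : ∀ a b c : G, (a * b * a⁻¹ * b⁻¹) * c = c * (a * b * a⁻¹ * b⁻¹))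
    (h1 : ∀ x : G, ∃ y, x⁻¹ * (y * y) ∈ Subgroup.center G) :
    ∃ (B : Type u) (_ : CommGroup B) (π : B → G), Function.Surjective π ∧
      ∀ (c : Con G) (x y z w : B), c (π x) (π y) → c (π z) (π w) →
        c (π (x * z)) (π (y * w)) := by
  obtain ⟨C, hC⟩ : ∃ C : G → G → G, ∀ a b, C a b = a * b * a⁻¹ * b⁻¹ :=
    ⟨fun a b => a * b * a⁻¹ * b⁻¹, fun a b => rfl⟩
  have hcc : ∀ a b g : G, Commute (C a b) g := fun a b g => by rw [hC]; exact hc a b g
  have hba : ∀ a b : G, b * a = C b a * (a * b) := fun a b => by rw [hC]; group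
  have hinv : ∀ a b : G, C b a = (C a b)⁻¹ := fun a b => by rw [hC, hC]; group
  have hl : ∀ a b d : G, C (a * b) d = C a d * C b d := by
    intro a b d
    have e1 : C (a * b) d = a * (C b d) * (d * a⁻¹ * d⁻¹) := by rw [hC, hC]; group
    rw [e1, ← (hcc b d a).eq]
    have e2 : C b d * a * (d * a⁻¹ * d⁻¹) = C b d * C a d := by rw [hC a d]; group
    rw [e2, (hcc b d _).eq]
  have hr : ∀ a b d : G, C a (b * d) = C a b * C a d := by
    intro a b d
    rw [hinv (b * d) a, hl, mul_inv_rev, ← hinv, ← hinv, (hcc a d _).eq]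
  have hself : ∀ a : G, C a a = 1 := fun a => by rw [hC]; group
  have hone : ∀ g : G, C 1 g = 1 := fun g => by rw [hC]; group
  have hinvl : ∀ a g : G, C a⁻¹ g = (C a g)⁻¹ := by
    intro a g
    have e := hl a⁻¹ a g
    rw [inv_mul_cancel, hone] at e
    exact eq_inv_of_mul_eq_one_left e.symm
  -- the centre
  have hz : ∀ z : G, z ∈ Subgroup.center G ↔ ∀ g, C z g = 1 := by
    intro z
    rw [Subgroup.mem_center_iff]
    constructor
    · intro h g
      rw [hC, ← h g]
      group
    · intro h g
      have e := hba g z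
      rw [h g, one_mul] at e
      exact e.symm
  have hCz : ∀ a b g : G, C (C a b) g = 1 := by
    intro a b g
    have e : C a b ∈ Subgroup.center G := Subgroup.mem_center_iff.2 fun g => (hcc a b g).eq.symm
    exact (hz _).1 e g
  choose s hs using h1
  -- the square of the commutator with `s x`
  have hsq : ∀ x g : G, C (s x) g * C (s x) g = C x g := by
    intro x g
    have e := (hz _).1 (hs x) g
    rw [hl, hl, hinvl] at e
    exact (inv_mul_eq_one.1 e).symm
  obtain ⟨D, hD⟩ : ∃ D : G → G → G, ∀ a b, D a b = C b (s a) := ⟨fun a b => C b (s a), fun a b => rfl⟩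
  have hDc : ∀ a b g : G, Commute (D a b) g := fun a b g => by rw [hD]; exact hcc _ _ _
  have hDi : ∀ a b : G, D a b = (D b a)⁻¹ := by
    intro a b
    rw [hD, hD, ← hsq b (s a), ← hsq a (s b), hinv (s a) (s b), mul_inv_rev]
  have hD2 : ∀ a b : G, D a b * D a b = C b a := by
    intro a b
    rw [hD, hinv (s a) b, ← mul_inv_rev, hsq, ← hinv]
  have hDr : ∀ a b d : G, D a (b * d) = D a b * D a d := by
    intro a b d
    rw [hD, hD, hD, hl]
  have hDl : ∀ a b d : G, D (a * b) d = D a d * D b d := by
    intro a b d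
    rw [hDi (a * b) d, hDr, mul_inv_rev, ← hDi, ← hDi, (hDc b d _).eq]
  have hDz : ∀ a b d : G, D d (D a b) = 1 := by
    intro a b d
    rw [hD, hD a b, hCz]
  have hDz' : ∀ a b d : G, D (D a b) d = 1 := by
    intro a b d
    rw [hDi, hDz, inv_one]
  have hD1 : ∀ d : G, D d 1 = 1 := fun d => by rw [hD, hone]
  have hD1' : ∀ d : G, D 1 d = 1 := fun d => by rw [hDi, hD1, inv_one]
  have hDs : ∀ d : G, D d d = 1 := fun d => by rw [hD, ← hsq d (s d), hself, mul_one]
  obtain ⟨m, hm⟩ : ∃ m : G → G → G, ∀ a b, m a b = a * b * D a b :=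
    ⟨fun a b => a * b * D a b, fun a b => rfl⟩
  have hassoc : ∀ a b d : G, m (m a b) d = m a (m b d) := by
    intro a b d
    rw [hm, hm, hm, hm, hDl, hDl, hDz', mul_one, hDr, hDr, hDz, mul_one]
    calc a * b * D a b * d * (D a d * D b d)
        = a * b * (D a b * d) * (D a d * D b d) := by simp only [mul_assoc]
      _ = a * b * (d * D a b) * (D a d * D b d) := by rw [(hDc a b d).eq]
      _ = a * b * d * (D a b * D a d * D b d) := by simp only [mul_assoc]
      _ = a * b * d * (D b d * (D a b * D a d)) := by rw [(hDc b d (D a b * D a d)).eq]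
      _ = a * (b * d * D b d) * (D a b * D a d) := by simp only [mul_assoc]
  have hcomm : ∀ a b : G, m a b = m b a := by
    intro a b
    rw [hm, hm, hba a b, ← hD2 a b, hDi b a]
    calc a * b * D a b = D a b * (a * b) := by rw [(hDc a b (a * b)).eq]
      _ = D a b * (a * b) * D a b * (D a b)⁻¹ := by rw [mul_inv_cancel_right]
      _ = D a b * ((a * b) * D a b) * (D a b)⁻¹ := by simp only [mul_assoc]
      _ = D a b * (D a b * (a * b)) * (D a b)⁻¹ := by rw [(hDc a b (a * b)).eq]
      _ = D a b * D a b * (a * b) * (D a b)⁻¹ := by simp only [mul_assoc]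
  have hm1 : ∀ a : G, m 1 a = a := fun a => by rw [hm, hD1']; simp
  have hminv : ∀ a : G, m a⁻¹ a = 1 := by
    intro a
    have e1 : D a⁻¹ a = 1 := by
      have e := hDl a⁻¹ a a
      rw [inv_mul_cancel, hD1', hDs, mul_one] at e
      exact e.symm
    rw [hm, e1]
    simp
  let B : CommGroup (SynH G) :=
    { mul := m
      mul_assoc := hassoc
      one := (1 : G)
      one_mul := hm1
      mul_one := fun a => (hcomm a 1).trans (hm1 a)
      inv := fun a => show G from (show G from a)⁻¹
      inv_mul_cancel := hminv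
      mul_comm := hcomm }
  refine ⟨SynH G, B, fun x => x, fun x => ⟨x, rfl⟩, ?_⟩
  intro c a a' b b' h h'
  have hCl : ∀ x y g : G, c x y → c (C x g) (C y g) := by
    intro x y g hxy
    rw [hC, hC]
    exact c.mul (c.mul (c.mul hxy (c.refl g)) (c.inv hxy)) (c.refl g⁻¹)
  show c (m a b) (m a' b')
  rw [hm, hm]
  refine c.mul (c.mul h h') (c.trans (y := D a b') ?_ ?_)
  · rw [hD, hD]
    exact hCl _ _ _ h'
  · rw [hDi a b', hDi a' b', hD, hD]
    exact c.inv (hCl _ _ _ h)

end Pool.Agent.CGB8
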