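import Pool.Agent.CGA.AQ
import Pool.Agent.CGB8.Half
import Mathlib.Algebra.Group.Commutator
import Mathlib.GroupTheory.Commutator.Basic

/-!
# The embedding of the congruence lattice
-/

set_option autoImplicit false

namespace Pool.Agent.CGB8

universe u

open Pool.Agent.CGA

/-- the pullback of a congruence -/
def pullB {G : Type u} [Group G] {B : Type u} [CommGroup B] (π : B → G)
    (hπ : ∀ (c : Con G) (x y z w : B), c (π x) (π y) → c (π z) (π w) → c (π (x * z)) (π (y * w)))
    (c : Con G) : Con B where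
  r x y := c (π x) (π y)
  iseqv := ⟨fun _ => c.refl _, fun h => c.symm h, fun h1 h2 => c.trans h1 h2⟩
  mul' := fun {x y z w} h1 h2 => hπ c x y z w h1 h2

theorem embedB {G : Type u} [Group G] {B : Type u} [CommGroup B] (π : B → G)
    (hs : Function.Surjective π)
    (hπ : ∀ (c : Con G) (x y z w : B), c (π x) (π y) → c (π z) (π w) → c (π (x * z)) (π (y * w))) :
    ∃ f : LatticeHom (Con G) (Con B), Function.Injective f := by
  refine ⟨⟨⟨pullB π hπ, ?_⟩, ?_⟩, ?_⟩
  · intro c d
    refine Con.ext fun u v => ?_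
    constructor
    · intro h1
      have h1' : (c ⊔ d) (π u) (π v) := h1
      rw [sup_iff] at h1'
      obtain ⟨z, h2, h3⟩ := h1'
      obtain ⟨w, rfl⟩ := hs z
      rw [sup_iff]
      exact ⟨w, h2, h3⟩
    · intro h1
      rw [sup_iff] at h1
      obtain ⟨w, h2, h3⟩ := h1
      have h4 : (c ⊔ d) (π u) (π v) := by
        rw [sup_iff]
        exact ⟨π w, h2, h3⟩
      exact h4
  · intro c d
    refine Con.ext fun u v => ?_
    rw [Con.inf_iff_and]
    exact Con.inf_iff_and
  · intro c d hcd
    have hcd' : pullB π hπ c = pullB π hπ d := hcd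
    refine Con.ext fun x y => ?_
    obtain ⟨u, rfl⟩ := hs x
    obtain ⟨v, rfl⟩ := hs y
    have h1 : pullB π hπ c u v ↔ pullB π hπ d u v := by rw [hcd']
    exact h1

open scoped commutatorElement

theorem embed_half (G : Type u) [Group G] (hc : ∀ x y z : G, ⁅⁅x, y⁆, z⁆ = 1)
    (h : ∀ x : G, ∃ y, x⁻¹ * (y * y) ∈ Subgroup.center G) :
    ∃ (B : Type u) (_ : CommGroup B) (f : LatticeHom (Con G) (Con B)), Function.Injective f := by
  obtain ⟨B, hB, π, hs, hπ⟩ := halfB (fun a b c => by
    have h := hc a b c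
    rw [commutatorElement_eq_one_iff_mul_comm, commutatorElement_def] at h
    exact h) h
  obtain ⟨f, hf⟩ := embedB π hs hπ
  exact ⟨B, hB, f, hf⟩

end Pool.Agent.CGB8
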